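import Mathlib

/-!
Tensor products of two-dimensional representations: the polynomial of a Kronecker product of
companion matrices, and its reduction modulo `l`.
-/

set_option autoImplicit false

open Polynomial

namespace Pool.Agent.Helper43x.TP

section defs

/-- The Kronecker product of the companion matrices of `X ^ 2 - a i X + q`. -/
def tensMat {I : Type} [Fintype I] (a : I → ℤ) (q : ℤ) : Matrix (I → Fin 2) (I → Fin 2) ℤ :=
  fun f g => ∏ i, (!![a i, -q; 1, 0] : Matrix (Fin 2) (Fin 2) ℤ) (f i) (g i)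

/-- `det (1 - X M)` for the Kronecker product `M` of the companion matrices of `X ^ 2 - a i X + q`:
this is the product of the `1 - (∏ i, γ i) X` over all choices of roots `γ i` of
`X ^ 2 - a i X + q`. -/
noncomputable def tensPoly {I : Type} [Fintype I] [DecidableEq I] (a : I → ℤ) (q : ℤ) : ℤ[X] :=
  (tensMat a q).charpolyRev

end defs

section gen

variable {R : Type} [CommRing R] {I : Type} [Fintype I]

/-- the Kronecker product of a family of matrices -/
def kron (M : I → Matrix (Fin 2) (Fin 2) R) : Matrix (I → Fin 2) (I → Fin 2) R :=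
  fun f g => ∏ i, M i (f i) (g i)

theorem kron_mul [DecidableEq I] (M N : I → Matrix (Fin 2) (Fin 2) R) :
    kron M * kron N = kron (fun i => M i * N i) := by
  ext f g
  simp only [kron, Matrix.mul_apply]
  rw [Finset.prod_univ_sum]
  simp only [Fintype.piFinset_univ, Finset.prod_mul_distrib]

theorem kron_one [DecidableEq I] : kron (fun _ : I => (1 : Matrix (Fin 2) (Fin 2) R)) = 1 := by
  ext f g
  simp only [kron, Matrix.one_apply]
  by_cases h : f = g
  · subst h
    simp
  · rw [if_neg h]
    obtain ⟨i, hi⟩ := Function.ne_iff.1 h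
    exact Finset.prod_eq_zero (Finset.mem_univ i) (if_neg hi)

/-- conjugation -/
theorem charpolyRev_conj {n : Type} [Fintype n] [DecidableEq n] (M T S S' : Matrix n n R)
    (h : M * S = S * T) (hS : S * S' = 1) : M.charpolyRev = T.charpolyRev := by
  have hS' : S.map (C : R →+* R[X]) * S'.map (C : R →+* R[X]) = 1 := by
    rw [← Matrix.map_mul, hS, Matrix.map_one _ (map_zero _) (map_one _)]
  have hdet : (S.map (C : R →+* R[X])).det * (S'.map (C : R →+* R[X])).det = 1 := by
    rw [← Matrix.det_mul, hS', Matrix.det_one]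
  have h1 : (1 - (X : R[X]) • M.map C) * S.map C = S.map C * (1 - (X : R[X]) • T.map C) := by
    have h2 : M.map (C : R →+* R[X]) * S.map (C : R →+* R[X]) = S.map C * T.map C := by
      rw [← Matrix.map_mul, h, Matrix.map_mul]
    rw [sub_mul, mul_sub, one_mul, mul_one, smul_mul_assoc, mul_smul_comm, h2]
  have h3 := congrArg Matrix.det h1
  rw [Matrix.det_mul, Matrix.det_mul, mul_comm (S.map C).det] at h3
  have h4 : (1 - (X : R[X]) • M.map C).det * ((S.map (C : R →+* R[X])).det *
      (S'.map (C : R →+* R[X])).det) = (1 - (X : R[X]) • T.map C).det *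
      ((S.map (C : R →+* R[X])).det * (S'.map (C : R →+* R[X])).det) := by
    rw [← mul_assoc, h3, mul_assoc]
  rw [hdet, mul_one, mul_one] at h4
  exact h4

/-- triangular matrices -/
theorem charpolyRev_tri [DecidableEq I] (q : R) :
    (kron (fun _ : I => (!![1, 1; 0, q] : Matrix (Fin 2) (Fin 2) R))).charpolyRev =
      ∏ f : I → Fin 2, (1 - C (q ^ (∑ i, (f i : ℕ))) * X) := by
  set T := kron (fun _ : I => (!![1, 1; 0, q] : Matrix (Fin 2) (Fin 2) R)) with hT
  have hz : ∀ f g : I → Fin 2, f ≠ g → (∑ i, (g i : ℕ)) ≤ ∑ i, (f i : ℕ) → T f g = 0 := by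
    intro f g hne hle
    have hex : ∃ i, g i < f i := by
      by_contra hcon
      push Not at hcon
      apply hne
      have h1 : ∀ i ∈ Finset.univ, (f i : ℕ) ≤ (g i : ℕ) := fun i _ => hcon i
      have h2 := (Finset.sum_eq_sum_iff_of_le h1).1 (le_antisymm (Finset.sum_le_sum h1) hle)
      funext i
      exact Fin.ext (h2 i (Finset.mem_univ i))
    obtain ⟨i, hi⟩ := hex
    rw [hT]
    refine Finset.prod_eq_zero (Finset.mem_univ i) ?_
    have h0 : g i = 0 := by omega
    have h1 : f i = 1 := by omega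
    rw [h0, h1]
    rfl
  have hd : ∀ f : I → Fin 2, T f f = q ^ (∑ i, (f i : ℕ)) := by
    intro f
    rw [hT, ← Finset.prod_pow_eq_pow_sum]
    refine Finset.prod_congr rfl fun i _ => ?_
    generalize f i = s
    fin_cases s <;> simp
  have hbt : (1 - (X : R[X]) • T.map C).BlockTriangular
      (fun f : I → Fin 2 => ∑ i, (f i : ℕ)) := by
    intro f g hfg
    have hne : f ≠ g := by
      rintro rfl
      exact lt_irrefl _ hfg
    rw [Matrix.sub_apply, Matrix.one_apply_ne hne, Matrix.smul_apply, Matrix.map_apply,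
      hz f g hne hfg.le, C_0, smul_zero, sub_zero]
  have key : (1 - (X : R[X]) • T.map C).det =
      ∏ f : I → Fin 2, (1 - (X : R[X]) • T.map C) f f := by
    rw [hbt.det]
    rw [← Finset.prod_fiberwise_of_maps_to (s := Finset.univ)
      (t := Finset.univ.image (fun f : I → Fin 2 => ∑ i, (f i : ℕ)))
      (g := fun f : I → Fin 2 => ∑ i, (f i : ℕ))
      (fun f _ => Finset.mem_image_of_mem _ (Finset.mem_univ f))]
    refine Finset.prod_congr rfl fun a _ => ?_
    have hdiag : (1 - (X : R[X]) • T.map C).toSquareBlock (fun f : I → Fin 2 => ∑ i, (f i : ℕ)) a =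
        Matrix.diagonal (fun f : {f : I → Fin 2 // ∑ i, (f i : ℕ) = a} =>
          (1 - (X : R[X]) • T.map C) f.1 f.1) := by
      ext f g : 1
      by_cases hfg : f = g
      · subst hfg
        rw [Matrix.diagonal_apply_eq]
        rfl
      · have hne : f.1 ≠ g.1 := fun h => hfg (Subtype.ext h)
        rw [Matrix.diagonal_apply_ne _ hfg]
        show (1 - (X : R[X]) • T.map C) f.1 g.1 = 0
        rw [Matrix.sub_apply, Matrix.one_apply_ne hne, Matrix.smul_apply, Matrix.map_apply,
          hz f.1 g.1 hne (by rw [f.2, g.2]), C_0, smul_zero, sub_zero]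
    rw [hdiag, Matrix.det_diagonal]
    rw [Finset.prod_subtype (p := fun f : I → Fin 2 => ∑ i, (f i : ℕ) = a) _
      (fun f => by simp) (fun f => (1 - (X : R[X]) • T.map C) f f)]
  show (1 - (X : R[X]) • T.map C).det = _
  rw [key]
  refine Finset.prod_congr rfl fun f _ => ?_
  rw [Matrix.sub_apply, Matrix.one_apply_eq, Matrix.smul_apply, Matrix.map_apply, hd f,
    smul_eq_mul, mul_comm]

end gen

section mod

variable {l : ℕ} {I : Type} [Fintype I] [DecidableEq I]

/-- The tensor product modulo `l`. -/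
theorem tensPoly_mod {a : I → ℤ} {q : ℤ}
    (h : ∀ i, ((a i : ℤ) : ZMod l) = 1 + ((q : ℤ) : ZMod l)) :
    (tensPoly a q).map (Int.castRingHom (ZMod l)) =
      ∏ f : I → Fin 2, (1 - C (((q : ℤ) : ZMod l) ^ (∑ i, (f i : ℕ))) * X) := by
  set x : ZMod l := ((q : ℤ) : ZMod l) with hx
  have h1 : (tensPoly a q).map (Int.castRingHom (ZMod l)) =
      ((tensMat a q).map (Int.castRingHom (ZMod l))).charpolyRev := by
    unfold tensPoly Matrix.charpolyRev
    rw [← coe_mapRingHom, RingHom.map_det]
    congr 1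
    ext f g : 1
    rw [RingHom.mapMatrix_apply, Matrix.map_apply, Matrix.sub_apply, Matrix.sub_apply,
      Matrix.smul_apply, Matrix.smul_apply, Matrix.map_apply, Matrix.map_apply, Matrix.map_apply,
      map_sub, smul_eq_mul, smul_eq_mul, map_mul, coe_mapRingHom, map_X, map_C]
    congr 1
    by_cases hfg : f = g
    · subst hfg
      rw [Matrix.one_apply_eq, Matrix.one_apply_eq, Polynomial.map_one]
    · rw [Matrix.one_apply_ne hfg, Matrix.one_apply_ne hfg, Polynomial.map_zero]
  have h2 : (tensMat a q).map (Int.castRingHom (ZMod l)) =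
      kron (fun _ : I => (!![1 + x, -x; 1, 0] : Matrix (Fin 2) (Fin 2) (ZMod l))) := by
    ext f g
    rw [Matrix.map_apply]
    unfold tensMat kron
    rw [map_prod]
    refine Finset.prod_congr rfl fun i _ => ?_
    generalize f i = s
    generalize g i = t
    fin_cases s <;> fin_cases t <;> simp [h i, hx]
  have e1 : (!![1 + x, -x; 1, 0] : Matrix (Fin 2) (Fin 2) (ZMod l)) * !![1, 1; 1, 0] =
      !![1, 1; 1, 0] * !![1, 1; 0, x] := by
    rw [Matrix.mul_fin_two, Matrix.mul_fin_two]
    congr 1
    simp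
  have e2 : (!![1, 1; 1, 0] : Matrix (Fin 2) (Fin 2) (ZMod l)) * !![0, 1; 1, -1] = 1 := by
    rw [Matrix.mul_fin_two, Matrix.one_fin_two]
    simp
  rw [h1, h2, ← charpolyRev_tri]
  refine charpolyRev_conj _ _ (kron fun _ => !![1, 1; 1, 0]) (kron fun _ => !![0, 1; 1, -1]) ?_ ?_
  · rw [kron_mul, kron_mul, e1]
  · rw [kron_mul, e2, kron_one]

end mod

end Pool.Agent.Helper43x.TP
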