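import Pool.Agent.R427.AR3
import Pool.Agent.Helper43x.TP.Mat

/-!
`L`-functions which are, modulo `l`, products of shifts of the `L`-function of a quadratic character.
-/

set_option autoImplicit false
set_option linter.all false
set_option maxHeartbeats 4000000

open PowerSeries FF Module

namespace Pool.Agent.Helper43x.TP

open Pool.Agent.W343.BSD Pool.Agent.H123R3.ZT Pool.Agent.W313.Gr Pool.Agent.W313.Hyp
open Pool.Agent.TH639.B3 Pool.Agent.H525R3.FFp
open Pool.Agent.R427.TW Pool.Agent.R427.AQ Pool.Agent.R427.AR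
open Pool.Agent.W309.T3 (rescale_eulerProd rescale_poly rm_comp binom_ne rm_binom card_char)

variable {l : ℕ} [Fact l.Prime]
variable {k K : Type} [Field k] [Finite k] [Field K] [Algebra k K] [FF.IsFF k K]
variable {J : Type} [Fintype J]

/-- the factor of a family of powers of the cyclotomic character -/
noncomputable def pairE (l : ℕ) (q : ZMod l) (e : J → ℕ) (x : ℤ) (d : ℕ) : Polynomial (ZMod l) :=
  ∏ j, (1 - Polynomial.C (((x : ℤ) : ZMod l) * (q ^ e j) ^ d) * Polynomial.X ^ d)

theorem pairE_mod (q : ZMod l) (e : J → ℕ) (x : ℤ) (d : ℕ) : (X : PowerSeries (ZMod l)) ^ d ∣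
    (pairE l q e x d : PowerSeries (ZMod l)) - 1 := by
  unfold pairE
  rw [coe_prod']
  have h := prod_congr_mod (Finset.univ : Finset J)
    (fun j => ((1 - Polynomial.C (((x : ℤ) : ZMod l) * (q ^ e j) ^ d) * Polynomial.X ^ d :
      Polynomial (ZMod l)) : PowerSeries (ZMod l))) (fun _ => 1) d (fun j _ => key_mod _ _)
  rwa [Finset.prod_const_one] at h

theorem identityE {χ : Place k K → ℤ} {P Q : Polynomial (ZMod l)}
    (hrel : (Q : PowerSeries (ZMod l)) * eulerProd (fun v : Place k K => v.deg)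
      (fun v => (chF l χ v : PowerSeries (ZMod l))) = (P : PowerSeries (ZMod l))) (q : ZMod l)
    (e : J → ℕ) :
    ((∏ j, Q.comp (Polynomial.C (q ^ e j) * Polynomial.X) :
      Polynomial (ZMod l)) : PowerSeries (ZMod l)) *
      eulerProd (fun v : Place k K => v.deg)
        (fun v => (pairE l q e (χ v) v.deg : PowerSeries (ZMod l))) =
    ((∏ j, P.comp (Polynomial.C (q ^ e j) * Polynomial.X) :
      Polynomial (ZMod l)) : PowerSeries (ZMod l)) := by
  have hfin := fun n => places_fin (k := k) (K := K) n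
  have e1 : (fun v : Place k K => (pairE l q e (χ v) v.deg : PowerSeries (ZMod l))) =
      fun v => ∏ j : J,
        ((1 - Polynomial.C (((χ v : ℤ) : ZMod l) * (q ^ e j) ^ v.deg) * Polynomial.X ^ v.deg :
          Polynomial (ZMod l)) : PowerSeries (ZMod l)) := by
    funext v
    unfold pairE
    rw [coe_prod']
  rw [e1, eulerProd_prod hfin (Finset.univ : Finset J) (fun j (v : Place k K) =>
      ((1 - Polynomial.C (((χ v : ℤ) : ZMod l) * (q ^ e j) ^ v.deg) * Polynomial.X ^ v.deg :
          Polynomial (ZMod l)) : PowerSeries (ZMod l))) (fun j v => key_mod _ _), coe_prod',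
    coe_prod', ← Finset.prod_mul_distrib]
  exact Finset.prod_congr rfl fun j _ => resc hrel (q ^ e j)

/-- the values modulo `l` -/
theorem crit_value (hlk : ((l : ℕ) : k) ≠ 0) (hlo : Odd l)
    (hq2 : ((Nat.card k : ℕ) : ZMod l) ^ 2 = 1) {u : K} (B : Finset (Place k K))
    (hbad : ∀ v ∈ B, chi v u = 0 ∨
      (chi v u = -1 ∧ ((Nat.card k : ℕ) : ZMod l) ^ v.deg = 1)) (hrel : NR2 l k u) (e : J → ℕ)
    (F : Place k K → Polynomial ℤ)
    (hgood : ∀ v, v ∉ B → (F v).map (Int.castRingHom (ZMod l)) =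
      pairE l ((Nat.card k : ℕ) : ZMod l) e (chi v u) v.deg)
    (hF : ∀ v ∈ B, (X : PowerSeries ℤ) ^ v.deg ∣ (F v : PowerSeries ℤ) - 1)
    {G : Polynomial ℤ} (hG : (G : PowerSeries ℤ) * eulerProd (fun v : Place k K => v.deg)
      (fun v => (F v : PowerSeries ℤ)) = 1) {t : ZMod l}
    (ht : t = 1 ∨ t = ((Nat.card k : ℕ) : ZMod l)⁻¹) :
    (G.map (Int.castRingHom (ZMod l))).eval t ≠ 0 := by
  classical
  have hq := card_ne_zero_mod (k := k) hlk
  obtain ⟨P, Q, hP, hQ1, hQ2, hr⟩ := hrel
  set q : ZMod l := ((Nat.card k : ℕ) : ZMod l) with hqdef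
  have hfin := fun n => places_fin (k := k) (K := K) n
  have h2 := identityE (k := k) (K := K) hr q e
  set sl : Place k K → Polynomial (ZMod l) := fun v =>
    (F v).map (Int.castRingHom (ZMod l)) with hsl
  have hslm : ∀ v, (X : PowerSeries (ZMod l)) ^ v.deg ∣ (sl v : PowerSeries (ZMod l)) - 1 := by
    intro v
    by_cases hv : v ∈ B
    · have h := map_dvd (redL l) (hF v hv)
      rw [map_sub, map_one, map_pow, redL_poly, PowerSeries.map_X] at h
      exact h
    · rw [show sl v = _ from hgood v hv]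
      exact pairE_mod _ _ _ _
  have h1 := fin_factor' hfin (fun v : Place k K => pairE_mod q e (chi v u) v.deg) hslm B
    (fun v hv => by rw [show sl v = _ from hgood v hv])
  have h3 := congrArg (redL l) hG
  rw [map_mul, map_one, redL_poly, map_eulerProd hfin] at h3
  have e3 : (fun v : Place k K => redL l (F v : PowerSeries ℤ)) =
      fun v => (sl v : PowerSeries (ZMod l)) := by
    funext v
    rw [redL_poly]
  rw [e3] at h3
  set GG : Polynomial (ZMod l) := G.map (Int.castRingHom (ZMod l)) with hGG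
  have h5 : (∏ j, P.comp (Polynomial.C (q ^ e j) * Polynomial.X)) *
      ((∏ v ∈ B, sl v) * GG) =
      (∏ j, Q.comp (Polynomial.C (q ^ e j) * Polynomial.X)) *
        ∏ v ∈ B, pairE l q e (chi v u) v.deg := by
    apply Polynomial.coe_injective
    rw [Polynomial.coe_mul, ← h2, Polynomial.coe_mul (∏ v ∈ B, sl v), Polynomial.coe_mul
      (∏ j, Q.comp (Polynomial.C (q ^ e j) * Polynomial.X)), coe_prod' B sl,
      coe_prod' B (fun v => pairE l q e (chi v u) v.deg)]
    set A := ((∏ j, Q.comp (Polynomial.C (q ^ e j) * Polynomial.X) :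
      Polynomial (ZMod l)) : PowerSeries (ZMod l))
    linear_combination A * (GG : PowerSeries (ZMod l)) * h1 +
      A * (∏ v ∈ B, (pairE l q e (chi v u) v.deg : PowerSeries (ZMod l))) * h3
  have h6 := congrArg (Polynomial.eval t) h5
  intro h0
  rw [Polynomial.eval_mul, Polynomial.eval_mul, h0, mul_zero, mul_zero, Polynomial.eval_mul] at h6
  refine mul_ne_zero ?_ ?_ h6.symm
  · rw [Polynomial.eval_prod]
    refine Finset.prod_ne_zero_iff.2 fun j _ => ?_
    rw [Polynomial.eval_comp, Polynomial.eval_mul, Polynomial.eval_C, Polynomial.eval_X]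
    rcases pm_mul hq hq2 ht (e j) with h | h
    · rw [h]; exact hQ1
    · rw [h]; exact hQ2
  · rw [Polynomial.eval_prod]
    refine Finset.prod_ne_zero_iff.2 fun v hv => ?_
    unfold pairE
    rw [Polynomial.eval_prod]
    refine Finset.prod_ne_zero_iff.2 fun j _ => ?_
    rw [Polynomial.eval_sub, Polynomial.eval_one, Polynomial.eval_mul, Polynomial.eval_C,
      Polynomial.eval_pow, Polynomial.eval_X]
    rcases hbad v hv with h | ⟨h, hd⟩
    · rw [h, Int.cast_zero, zero_mul, zero_mul, sub_zero]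
      exact one_ne_zero
    · have ht1 : t ^ v.deg = 1 := by
        rcases ht with h' | h'
        · rw [h', one_pow]
        · rw [h', inv_pow, hd, inv_one]
      rw [h, ht1, ← pow_mul, mul_comm (e j), pow_mul, hd, one_pow, Int.cast_neg, Int.cast_one,
        mul_one, mul_one, sub_neg_eq_add]
      exact one_ne_neg hlo

/-- the polynomial of a good place -/
theorem good_factor {e : J → ℕ} {v : Place k K} {P : Polynomial ℤ} (x : ℤ)
    (hP : P.map (Int.castRingHom (ZMod l)) =
      ∏ j, (1 - Polynomial.C (((Nat.card (S.Res v) : ℕ) : ZMod l) ^ e j) * Polynomial.X)) :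
    (P.comp (Polynomial.C x * Polynomial.X ^ S.deg v)).map (Int.castRingHom (ZMod l)) =
      pairE l ((Nat.card k : ℕ) : ZMod l) e x v.deg := by
  have hqc : ((Nat.card (S.Res v) : ℕ) : ZMod l) = ((Nat.card k : ℕ) : ZMod l) ^ v.deg :=
    card_RFl v
  rw [Polynomial.map_comp, hP, Polynomial.prod_comp]
  unfold pairE
  refine Finset.prod_congr rfl fun j _ => ?_
  rw [Polynomial.sub_comp, Polynomial.one_comp, Polynomial.mul_comp, Polynomial.C_comp,
    Polynomial.X_comp, Polynomial.map_mul, Polynomial.map_C, Polynomial.map_pow,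
    Polynomial.map_X, eq_intCast, S.deg_eq, ← mul_assoc, ← Polynomial.C_mul]
  congr 3
  rw [hqc, ← pow_mul, ← pow_mul, mul_comm v.deg (e j)]
  ring

/-- polynomials in `X ^ d` with constant term `1` -/
theorem bad_factor {f : Polynomial ℤ} (hf : f.coeff 0 = 1) (d : ℕ) :
    (X : PowerSeries ℤ) ^ d ∣ ((f.comp (Polynomial.X ^ d) : Polynomial ℤ) : PowerSeries ℤ) - 1 := by
  have h1 : (Polynomial.X : Polynomial ℤ) ∣ f - 1 := by
    rw [Polynomial.X_dvd_iff, Polynomial.coeff_sub, hf, Polynomial.coeff_one_zero, sub_self]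
  obtain ⟨g, hg⟩ := h1
  have h2 : f = 1 + Polynomial.X * g := by rw [← hg]; ring
  rw [h2, Polynomial.add_comp, Polynomial.one_comp, Polynomial.mul_comp, Polynomial.X_comp,
    Polynomial.coe_add, Polynomial.coe_one, Polynomial.coe_mul, Polynomial.coe_pow,
    Polynomial.coe_X, add_sub_cancel_left]
  exact dvd_mul_right _ _

end Pool.Agent.Helper43x.TP
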