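import Pool.Agent.Helper43x.TP.Crit

/-!
The `L`-functions of twisted tensor products of elliptic curves: no zeros at the integers.
-/

set_option autoImplicit false
set_option linter.all false
set_option maxHeartbeats 4000000

open PowerSeries FF Module

namespace Pool.Agent.Helper43x.TP

open Pool.Agent.W343.BSD Pool.Agent.H123R3.ZT Pool.Agent.W313.Gr Pool.Agent.W313.Hyp
open Pool.Agent.TH639.B3 Pool.Agent.H525R3.FFp
open Pool.Agent.R427.TW Pool.Agent.R427.AQ Pool.Agent.R427.AR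

variable {l : ℕ} [Fact l.Prime]
variable {k K : Type} [Field k] [Finite k] [Field K] [Algebra k K] [FF.IsFF k K]

/-- The general criterion. -/
theorem crit_main (hlk : ((l : ℕ) : k) ≠ 0) (hlo : Odd l)
    (hq2 : ((Nat.card k : ℕ) : ZMod l) ^ 2 = 1) {u : K} {B : Set (Place k K)} (hB : B.Finite)
    (hbad : ∀ v ∈ B, chi v u = 0 ∨
      (chi v u = -1 ∧ ((Nat.card k : ℕ) : ZMod l) ^ v.deg = 1)) (hrel : NR2 l k u)
    {J : Type} [Fintype J] (e : J → ℕ) (P F : Place k K → Polynomial ℤ)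
    (hP : ∀ v, v ∉ B → (P v).map (Int.castRingHom (ZMod l)) =
      ∏ j, (1 - Polynomial.C (((Nat.card (S.Res v) : ℕ) : ZMod l) ^ e j) * Polynomial.X))
    (hgood : ∀ v, v ∉ B → F v =
      (P v).comp (Polynomial.C (chi v u) * Polynomial.X ^ S.deg v))
    (hF : ∀ v ∈ B, ∃ f : Polynomial ℤ, f.coeff 0 = 1 ∧ F v = f.comp (Polynomial.X ^ S.deg v))
    {G : Polynomial ℤ} (hG : (G : PowerSeries ℤ) * eulerProd (fun v : Place k K => S.deg v)
      (fun v => (F v : PowerSeries ℤ)) = 1) (j : ℤ) :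
    (G.map (Int.castRingHom ℚ)).eval (((Nat.card k : ℕ) : ℚ) ^ j) ≠ 0 ∧
      padicValRat l ((G.map (Int.castRingHom ℚ)).eval (((Nat.card k : ℕ) : ℚ) ^ j)) = 0 := by
  have hq := card_ne_zero_mod (k := k) hlk
  have hG' : (G : PowerSeries ℤ) * eulerProd (fun v : FF.Place k K => v.deg)
      (fun v => (F v : PowerSeries ℤ)) = 1 := by
    have e : (fun v : FF.Place k K => v.deg) = fun v => S.deg v := by
      funext v
      rw [S.deg_eq]
    rw [e]
    exact hG
  refine int_value hq j (crit_value hlk hlo hq2 hB.toFinset ?_ hrel e F ?_ ?_ hG'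
    (zpow_pm hq hq2 j))
  · intro v hv
    exact hbad v (hB.mem_toFinset.1 hv)
  · intro v hv
    have hv' : v ∉ B := fun h => hv (hB.mem_toFinset.2 h)
    rw [hgood v hv']
    exact good_factor _ (hP v hv')
  · intro v hv
    obtain ⟨f, hf, h⟩ := hF v (hB.mem_toFinset.1 hv)
    rw [h, S.deg_eq]
    exact bad_factor hf _

/-- The Euler factors of tensor products modulo `l`. -/
theorem tens_unip {I : Type} [Fintype I] [DecidableEq I] {a b : I → K}
    (hN : ∀ i, PointsDvd l k (a i) (b i)) (v : Place k K)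
    (hv : ∀ i, v.ord (minDisc v (a i) (b i)) = 0) :
    (tensPoly (fun i => S.trace v (a i) (b i)) (Nat.card (S.Res v))).map
        (Int.castRingHom (ZMod l)) =
      ∏ f : I → Fin 2, (1 - Polynomial.C (((Nat.card (S.Res v) : ℕ) : ZMod l) ^
        (∑ i, (f i : ℕ))) * Polynomial.X) := by
  have h1 : ∀ i, ((S.trace v (a i) (b i) : ℤ) : ZMod l) =
      1 + (((Nat.card (S.Res v) : ℕ) : ℤ) : ZMod l) := by
    intro i
    have h2 := (ZMod.intCast_zmod_eq_zero_iff_dvd _ _).2 (hN i v (hv i))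
    push_cast at h2 ⊢
    linear_combination -h2
  have h3 := tensPoly_mod (l := l) (a := fun i => S.trace v (a i) (b i))
    (q := (Nat.card (S.Res v) : ℤ)) h1
  rw [h3]
  refine Finset.prod_congr rfl fun f _ => ?_
  rw [Int.cast_natCast]

theorem bad_set_finite {I : Type} [Fintype I] {a b : I → K}
    (hΔ : ∀ i, 4 * a i ^ 3 + 27 * b i ^ 2 ≠ 0) :
    {v : Place k K | ∃ i, v.ord (minDisc v (a i) (b i)) ≠ 0}.Finite := by
  have h1 : {v : Place k K | ∃ i, v.ord (minDisc v (a i) (b i)) ≠ 0} =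
      ⋃ i, {v : Place k K | v.ord (minDisc v (a i) (b i)) ≠ 0} := by
    ext v
    simp
  rw [h1]
  refine Set.finite_iUnion fun i => (bad_finite (k := k) (hΔ i)).subset ?_
  intro v hv
  show v.red (minDisc v (a i) (b i)) = 0
  by_contra h
  exact hv ((S.ord_disc_iff v (hΔ i)).2 h)

end Pool.Agent.Helper43x.TP
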